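import Pool.Agent.Near48.Greedy
import Pool.Agent.Gabow87.Blocks

/-!
# Almost Gabow: blocks of cyclically consecutive terms

`near_refine`: two bases of a matroid of rank `r` can be reordered such that the blocks of `r`
consecutive terms which start in the first basis are bases and all blocks of `r - 1` consecutive terms
are independent; pairs of opposite blocks which are bases for the given orderings are kept.
-/

set_option autoImplicit false

namespace Pool.Agent.Near48

open Pool.Agent.Gabow87

variable {r : ℕ}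

theorem block_Tt (σ σ' : Equiv.Perm (Fin r)) (i : Fin (r + r)) (hi : i.val < r) :
    block (Sum.inl ∘ σ) (Sum.inr ∘ σ') i = (Tt σ σ' i.val : Set (Fin r ⊕ Fin r)) := by
  ext t
  rw [mem_block_lt _ _ _ hi, Finset.mem_coe]
  rcases t with t | t
  · rw [inl_mem_Tt]
    constructor
    · rintro (⟨j, hj, h⟩ | ⟨j, hj, h⟩)
      · have h1 : t = σ j := by simpa using h
        rw [h1, Equiv.symm_apply_apply]
        exact hj
      · exact absurd h (by simp)
    · intro h
      exact Or.inl ⟨σ.symm t, h, by simp⟩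
  · rw [inr_mem_Tt]
    constructor
    · rintro (⟨j, hj, h⟩ | ⟨j, hj, h⟩)
      · exact absurd h (by simp)
      · have h1 : t = σ' j := by simpa using h
        rw [h1, Equiv.symm_apply_apply]
        exact hj
    · intro h
      exact Or.inr ⟨σ'.symm t, h, by simp⟩

theorem block_Ss (σ σ' : Equiv.Perm (Fin r)) (i : Fin (r + r)) (hi : r ≤ i.val) :
    block (Sum.inl ∘ σ) (Sum.inr ∘ σ') i = (Ss σ σ' (i.val - r) : Set (Fin r ⊕ Fin r)) := by
  ext t
  rw [mem_block_ge _ _ _ hi, Finset.mem_coe]
  rcases t with t | t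
  · rw [inl_mem_Ss]
    constructor
    · rintro (⟨j, hj, h⟩ | ⟨j, hj, h⟩)
      · exact absurd h (by simp)
      · have h1 : t = σ j := by simpa using h
        rw [h1, Equiv.symm_apply_apply]
        exact hj
    · intro h
      exact Or.inr ⟨σ.symm t, h, by simp⟩
  · rw [inr_mem_Ss]
    constructor
    · rintro (⟨j, hj, h⟩ | ⟨j, hj, h⟩)
      · have h1 : t = σ' j := by simpa using h
        rw [h1, Equiv.symm_apply_apply]
        exact hj
      · exact absurd h (by simp)
    · intro h
      exact Or.inl ⟨σ'.symm t, h, by simp⟩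

/-- the terms of the sequence and their indices -/
theorem append_comp {α : Type*} (b b' : Fin r → α) (σ σ' : Equiv.Perm (Fin r)) :
    Fin.append (b ∘ σ) (b' ∘ σ') = Sum.elim b b' ∘ Fin.append (Sum.inl ∘ σ) (Sum.inr ∘ σ') := by
  funext j
  refine Fin.addCases (fun j => ?_) (fun j => ?_) j
  · rw [Function.comp_apply, Fin.append_left, Fin.append_left]
    rfl
  · rw [Function.comp_apply, Fin.append_right, Fin.append_right]
    rfl

theorem block_image {α : Type*} (b b' : Fin r → α) (σ σ' : Equiv.Perm (Fin r))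
    (i : Fin (r + r)) :
    block (b ∘ σ) (b' ∘ σ') i = Sum.elim b b' '' block (Sum.inl ∘ σ) (Sum.inr ∘ σ') i := by
  ext t
  constructor
  · rintro ⟨j, hj, rfl⟩
    refine ⟨_, ⟨j, hj, rfl⟩, ?_⟩
    exact (congrFun (append_comp b b' σ σ') j).symm
  · rintro ⟨_, ⟨j, hj, rfl⟩, rfl⟩
    refine ⟨j, hj, ?_⟩
    exact (congrFun (append_comp b b' σ σ') j).symm

theorem injective_index (σ σ' : Equiv.Perm (Fin r)) :
    Function.Injective (Fin.append (Sum.inl ∘ σ) (Sum.inr ∘ σ') : Fin (r + r) → Fin r ⊕ Fin r) := by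
  intro j j'
  refine Fin.addCases (fun j => ?_) (fun j => ?_) j <;>
    refine Fin.addCases (fun j' => ?_) (fun j' => ?_) j'
  · intro h
    rw [Fin.append_left, Fin.append_left] at h
    rw [σ.injective (Sum.inl.inj h)]
  · intro h
    rw [Fin.append_left, Fin.append_right] at h
    exact absurd h (by simp)
  · intro h
    rw [Fin.append_left, Fin.append_right] at h
    exact absurd h (by simp)
  · intro h
    rw [Fin.append_right, Fin.append_right] at h
    rw [σ'.injective (Sum.inr.inj h)]

section Bases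

variable {α : Type*} {M : Matroid α} {b b' : Fin r → α}

private lemma encard_range {b : Fin r → α} (hb : Function.Injective b) :
    (Set.range b).encard = r := by
  rw [← Set.image_univ, hb.encard_image, Set.encard_univ]
  simp

theorem card_le_of_indep (hb : Function.Injective b) (hB : M.IsBase (Set.range b))
    (I : Finset (Fin r ⊕ Fin r))
    (hI : (M.comap (Sum.elim b b')).Indep (I : Set (Fin r ⊕ Fin r))) : I.card ≤ r := by
  rw [Matroid.comap_indep_iff] at hI
  have h1 := hI.1.encard_le_eRank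
  rw [← hB.encard_eq_eRank, encard_range hb, hI.2.encard_image,
    Set.encard_coe_eq_coe_finsetCard] at h1
  exact_mod_cast h1

theorem isBase_of_indep (hb : Function.Injective b) (hB : M.IsBase (Set.range b))
    {I : Finset (Fin r ⊕ Fin r)}
    (hI : (M.comap (Sum.elim b b')).Indep (I : Set (Fin r ⊕ Fin r))) (hc : I.card = r) :
    M.IsBase (Sum.elim b b' '' (I : Set (Fin r ⊕ Fin r))) := by
  rw [Matroid.comap_indep_iff] at hI
  obtain ⟨B, hB', hIB⟩ := hI.1.exists_isBase_superset
  have h1 : (Sum.elim b b' '' (I : Set (Fin r ⊕ Fin r))).encard = r := by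
    rw [hI.2.encard_image, Set.encard_coe_eq_coe_finsetCard, hc]
  have h2 : B.encard = r := by
    rw [hB'.encard_eq_eRank, ← hB.encard_eq_eRank, encard_range hb]
  have h3 : Sum.elim b b' '' (I : Set (Fin r ⊕ Fin r)) = B := by
    have hfin : B.Finite := Set.finite_of_encard_eq_coe h2
    refine hfin.eq_of_subset_of_encard_le' hIB ?_
    rw [h1, h2]
  rw [h3]
  exact hB'

theorem indep_of_isBase (hb : Function.Injective b) (hB : M.IsBase (Set.range b))
    {I : Finset (Fin r ⊕ Fin r)} (hc : I.card = r)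
    (hI : M.IsBase (Sum.elim b b' '' (I : Set (Fin r ⊕ Fin r)))) :
    (M.comap (Sum.elim b b')).Indep (I : Set (Fin r ⊕ Fin r)) := by
  rw [Matroid.comap_indep_iff]
  refine ⟨hI.indep, ?_⟩
  refine Set.Finite.injOn_of_encard_image_eq (Set.toFinite _) ?_
  rw [hI.encard_eq_eRank, ← hB.encard_eq_eRank, encard_range hb,
    Set.encard_coe_eq_coe_finsetCard, hc]

/-- the numbers `m` for which both blocks starting at `m` and at `r + m` are bases -/
def KK (M : Matroid α) (b b' : Fin r → α) : Set ℕ :=
  {m | (M.comap (Sum.elim b b')).Indep (Tt (1 : Equiv.Perm (Fin r)) 1 m : Set (Fin r ⊕ Fin r)) ∧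
    (M.comap (Sum.elim b b')).Indep (Ss (1 : Equiv.Perm (Fin r)) 1 m : Set (Fin r ⊕ Fin r))}

theorem image_Ss_zero (b b' : Fin r → α) (σ σ' : Equiv.Perm (Fin r)) :
    Sum.elim b b' '' (Ss σ σ' 0 : Set (Fin r ⊕ Fin r)) = Set.range b' := by
  ext t
  constructor
  · rintro ⟨i | i, hi, rfl⟩
    · rw [Finset.mem_coe, inl_mem_Ss] at hi
      exact absurd hi (Nat.not_lt_zero _)
    · exact ⟨i, rfl⟩
  · rintro ⟨i, rfl⟩
    exact ⟨Sum.inr i, by rw [Finset.mem_coe, inr_mem_Ss]; exact Nat.zero_le _, rfl⟩

theorem zero_mem_KK (hb : Function.Injective b) (hB : M.IsBase (Set.range b))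
    (hB' : M.IsBase (Set.range b')) : 0 ∈ KK M b b' := by
  refine ⟨indep_of_isBase hb hB (card_Tt _ _ _) ?_,
    indep_of_isBase hb hB (card_Ss _ _ _) (by rw [image_Ss_zero]; exact hB')⟩
  convert hB using 1
  ext t
  constructor
  · rintro ⟨i | i, hi, rfl⟩
    · exact ⟨i, rfl⟩
    · rw [Finset.mem_coe, inr_mem_Tt] at hi
      exact absurd hi (Nat.not_lt_zero _)
  · rintro ⟨i, rfl⟩
    exact ⟨Sum.inl i, by rw [Finset.mem_coe, inl_mem_Tt]; exact Nat.zero_le _, rfl⟩

theorem self_mem_KK (hb : Function.Injective b) (hB : M.IsBase (Set.range b))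
    (hB' : M.IsBase (Set.range b')) : r ∈ KK M b b' := by
  refine ⟨indep_of_isBase hb hB (card_Tt _ _ _) ?_, indep_of_isBase hb hB (card_Ss _ _ _) ?_⟩
  · convert hB' using 1
    ext t
    constructor
    · rintro ⟨i | i, hi, rfl⟩
      · rw [Finset.mem_coe, inl_mem_Tt] at hi
        exact absurd hi (Nat.not_le.2 (Fin.is_lt _))
      · exact ⟨i, rfl⟩
    · rintro ⟨i, rfl⟩
      exact ⟨Sum.inr i, by rw [Finset.mem_coe, inr_mem_Tt]; exact Fin.is_lt _, rfl⟩
  · convert hB using 1
    ext t
    constructor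
    · rintro ⟨i | i, hi, rfl⟩
      · exact ⟨i, rfl⟩
      · rw [Finset.mem_coe, inr_mem_Ss] at hi
        exact absurd hi (Nat.not_le.2 (Fin.is_lt _))
    · rintro ⟨i, rfl⟩
      exact ⟨Sum.inl i, by rw [Finset.mem_coe, inl_mem_Ss]; exact Fin.is_lt _, rfl⟩

/-- opposite blocks which are bases are kept -/
theorem keep (hb : Function.Injective b) (hB : M.IsBase (Set.range b))
    {σ σ' : Equiv.Perm (Fin r)}
    (p1 : ∀ m ∈ KK M b b', ∀ i, (σ i).val < m ↔ i.val < m)
    (p1' : ∀ m ∈ KK M b b', ∀ i, (σ' i).val < m ↔ i.val < m) (m : ℕ)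
    (hm : ∀ j : Fin (r + r), j.val % r = m → M.IsBase (block b b' j))
    (j : Fin (r + r)) (hj : j.val % r = m) : M.IsBase (block (b ∘ σ) (b' ∘ σ') j) := by
  have hj2 := j.isLt
  have hmr : m < r := by
    rw [← hj]
    exact Nat.mod_lt _ (by omega)
  have e0 : block b b' = block (b ∘ (1 : Equiv.Perm (Fin r))) (b' ∘ (1 : Equiv.Perm (Fin r))) :=
    rfl
  have hmK : m ∈ KK M b b' := by
    have h1 := hm ⟨m, by omega⟩ (Nat.mod_eq_of_lt hmr)
    have h2 := hm ⟨r + m, by omega⟩ (by
      change (r + m) % r = m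
      rw [Nat.add_mod_left, Nat.mod_eq_of_lt hmr])
    rw [e0, block_image, block_Tt _ _ _ hmr] at h1
    rw [e0, block_image, block_Ss _ _ _ (by change r ≤ r + m; omega)] at h2
    have h3 : (⟨r + m, by omega⟩ : Fin (r + r)).val - r = m := by
      change r + m - r = m
      omega
    rw [h3] at h2
    exact ⟨indep_of_isBase hb hB (card_Tt _ _ _) h1, indep_of_isBase hb hB (card_Ss _ _ _) h2⟩
  have e1 : ∀ i, (σ.symm i).val < m ↔ i.val < m := fun i => by
    rw [← p1 m hmK, Equiv.apply_symm_apply]
  have e1' : ∀ i, (σ'.symm i).val < m ↔ i.val < m := fun i => by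
    rw [← p1' m hmK, Equiv.apply_symm_apply]
  have hTm : Tt σ σ' m = Tt (1 : Equiv.Perm (Fin r)) 1 m := by
    ext t
    rcases t with i | i
    · rw [inl_mem_Tt, inl_mem_Tt]
      have := e1 i
      change _ ↔ m ≤ i.val
      omega
    · rw [inr_mem_Tt, inr_mem_Tt]
      exact e1' i
  have hSm : Ss σ σ' m = Ss (1 : Equiv.Perm (Fin r)) 1 m := by
    ext t
    rcases t with i | i
    · rw [inl_mem_Ss, inl_mem_Ss]
      exact e1 i
    · rw [inr_mem_Ss, inr_mem_Ss]
      have := e1' i
      change _ ↔ m ≤ i.val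
      omega
  rcases Nat.lt_or_ge j.val r with h | h
  · rw [Nat.mod_eq_of_lt h] at hj
    rw [block_image, block_Tt _ _ _ h, hj, hTm]
    exact isBase_of_indep hb hB hmK.1 (card_Tt _ _ _)
  · have hj3 : j.val - r = m := by
      rw [← hj, ← Nat.mod_eq_of_lt (show j.val - r < r by omega), Nat.mod_eq_sub_mod h]
    rw [block_image, block_Ss _ _ _ h, hj3, hSm]
    exact isBase_of_indep hb hB hmK.2 (card_Ss _ _ _)

/-- the blocks starting in the first basis -/
theorem outer (hb : Function.Injective b) (hB : M.IsBase (Set.range b))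
    (hB' : M.IsBase (Set.range b')) {σ σ' : Equiv.Perm (Fin r)}
    (p2 : ∀ k ≤ r, (M.comap (Sum.elim b b')).Indep (Tt σ σ' k : Set (Fin r ⊕ Fin r)))
    (i : Fin (r + r)) (hi : i.val ≤ r) : M.IsBase (block (b ∘ σ) (b' ∘ σ') i) := by
  rw [block_image]
  rcases Nat.lt_or_ge i.val r with h | h
  · rw [block_Tt _ _ _ h]
    exact isBase_of_indep hb hB (p2 _ hi) (card_Tt _ _ _)
  · rw [block_Ss _ _ _ h, show i.val - r = 0 by omega, image_Ss_zero]
    exact hB'

/-- **Almost Gabow.** Two bases of a matroid of rank `r` can be reordered such that the blocks of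
`r` consecutive terms which start in the first basis are bases and all blocks of `r - 1`
cyclically consecutive terms are independent; pairs of opposite blocks which are bases for the
given orderings are kept. -/
theorem near_refine (M : Matroid α) (b b' : Fin r → α)
    (hb : Function.Injective b) (hB : M.IsBase (Set.range b)) (hB' : M.IsBase (Set.range b')) :
    ∃ σ σ' : Equiv.Perm (Fin r),
      (∀ i : Fin (r + r), i.val ≤ r → M.IsBase (block (b ∘ σ) (b' ∘ σ') i)) ∧
      (∀ i : Fin (r + r), Set.InjOn (Fin.append (b ∘ σ) (b' ∘ σ')) {j | (j - i).val < r - 1} ∧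
        M.Indep (Fin.append (b ∘ σ) (b' ∘ σ') '' {j | (j - i).val < r - 1})) ∧
      ∀ m : ℕ, (∀ j : Fin (r + r), j.val % r = m → M.IsBase (block b b' j)) →
        ∀ j : Fin (r + r), j.val % r = m → M.IsBase (block (b ∘ σ) (b' ∘ σ') j) := by
  classical
  obtain ⟨σ, σ', p1, p1', p2, p3⟩ := greedy (M.comap (Sum.elim b b'))
    (card_le_of_indep hb hB) (KK M b b') (zero_mem_KK hb hB hB') (self_mem_KK hb hB hB')
    (fun m hm => hm.1) (fun m hm => hm.2) r le_rfl
  refine ⟨σ, σ', outer hb hB hB' p2, ?_, keep hb hB p1 p1'⟩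
  intro i
  have key : ∃ X : Set (Fin r ⊕ Fin r), (M.comap (Sum.elim b b')).Indep X ∧
      ∀ j : Fin (r + r), (j - i).val < r - 1 →
        (Fin.append (Sum.inl ∘ σ) (Sum.inr ∘ σ') : Fin (r + r) → Fin r ⊕ Fin r) j ∈ X := by
    rcases Nat.lt_or_ge i.val r with h | h
    · refine ⟨_, p2 i.val h.le, fun j hj => ?_⟩
      rw [← block_Tt _ _ _ h]
      exact ⟨j, by omega, rfl⟩
    · rcases Nat.eq_or_lt_of_le h with h1 | h1
      · refine ⟨Ss σ σ' 0, indep_of_isBase hb hB (card_Ss _ _ _)
          (by rw [image_Ss_zero]; exact hB'), fun j hj => ?_⟩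
        have h2 := block_Ss σ σ' i h
        rw [show i.val - r = 0 by omega] at h2
        rw [← h2]
        exact ⟨j, by omega, rfl⟩
      · have hir := i.isLt
        refine ⟨_, p3 ⟨i.val - r - 1, by omega⟩ (by change i.val - r - 1 < r; omega),
          fun j hj => ?_⟩
        have h2 : (Fin.append (Sum.inl ∘ σ) (Sum.inr ∘ σ') : Fin (r + r) → Fin r ⊕ Fin r) j ∈
            block (Sum.inl ∘ σ) (Sum.inr ∘ σ') i := ⟨j, by omega, rfl⟩
        rw [block_Ss _ _ _ h, Finset.mem_coe] at h2
        rw [Finset.mem_coe, Finset.mem_erase]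
        revert h2 hj
        refine Fin.addCases (fun j => ?_) (fun j => ?_) j
        · intro hj h2
          rw [Fin.append_left, Function.comp_apply] at h2 ⊢
          refine ⟨by simp, ?_⟩
          rw [inl_mem_Ss, Equiv.symm_apply_apply] at h2 ⊢
          have h3 : Fin.castAdd r j < i := by
            rw [Fin.lt_def, Fin.val_castAdd]
            have := j.isLt
            omega
          rw [Fin.coe_sub_iff_lt.mpr h3, Fin.val_castAdd] at hj
          change j.val < i.val - r - 1
          omega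
        · intro hj h2
          rw [Fin.append_right, Function.comp_apply] at h2 ⊢
          rw [inr_mem_Ss, Equiv.symm_apply_apply] at h2 ⊢
          constructor
          · intro h3
            rw [Sum.inr.injEq] at h3
            have h4 := σ'.injective h3
            rw [h4] at h2
            change i.val - r ≤ i.val - r - 1 at h2
            omega
          · change i.val - r - 1 ≤ j.val
            omega
  obtain ⟨X, hX, hjX⟩ := key
  have hsub : (Fin.append (Sum.inl ∘ σ) (Sum.inr ∘ σ') : Fin (r + r) → Fin r ⊕ Fin r) ''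
      {j | (j - i).val < r - 1} ⊆ X := by
    rintro _ ⟨j, hj, rfl⟩
    exact hjX j hj
  have h5 := hX.subset hsub
  rw [Matroid.comap_indep_iff] at h5
  rw [append_comp]
  refine ⟨?_, ?_⟩
  · exact h5.2.comp (injective_index σ σ').injOn (Set.mapsTo_image _ _)
  · rw [Set.image_comp]
    exact h5.1

theorem isBase_comap (hb : Function.Injective b) (hB : M.IsBase (Set.range b))
    {I : Finset (Fin r ⊕ Fin r)}
    (hI : (M.comap (Sum.elim b b')).Indep (I : Set (Fin r ⊕ Fin r))) (hc : I.card = r) :
    (M.comap (Sum.elim b b')).IsBase (I : Set (Fin r ⊕ Fin r)) := by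
  classical
  obtain ⟨B, hB', hIB⟩ := hI.exists_isBase_superset
  have h1 : B = (I : Set (Fin r ⊕ Fin r)) := by
    have hfin : B.Finite := Set.toFinite B
    have h2 := card_le_of_indep hb hB hfin.toFinset (by
      rw [hfin.coe_toFinset]
      exact hB'.indep)
    have h3 : I ⊆ hfin.toFinset := by
      intro t ht
      rw [Set.Finite.mem_toFinset]
      exact hIB ht
    rw [Finset.eq_of_subset_of_card_le h3 (by omega), hfin.coe_toFinset]
  rw [← h1]
  exact hB'

private lemma mem_swap {X : Finset (Fin r ⊕ Fin r)} {t : Fin r ⊕ Fin r} :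
    t ∈ Sum.swap '' (X : Set (Fin r ⊕ Fin r)) ↔ t.swap ∈ X := by
  constructor
  · rintro ⟨u, hu, rfl⟩
    rw [Sum.swap_swap]
    exact hu
  · intro h
    exact ⟨t.swap, h, Sum.swap_swap t⟩

private lemma swap_inj : Function.Injective (Sum.swap : Fin r ⊕ Fin r → Fin r ⊕ Fin r) :=
  fun a c h => by rw [← Sum.swap_swap a, h, Sum.swap_swap]

/-- **Almost Gabow, dual form.** All blocks of `r + 1` cyclically consecutive terms span. -/
theorem near_refine_dual (M : Matroid α) (b b' : Fin r → α)
    (hb : Function.Injective b) (hB : M.IsBase (Set.range b)) (hB' : M.IsBase (Set.range b')) :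
    ∃ σ σ' : Equiv.Perm (Fin r),
      (∀ i : Fin (r + r), i.val ≤ r → M.IsBase (block (b ∘ σ) (b' ∘ σ') i)) ∧
      (∀ i : Fin (r + r),
        M.Spanning (Fin.append (b ∘ σ) (b' ∘ σ') '' {j | (j - i).val < r + 1})) ∧
      ∀ m : ℕ, (∀ j : Fin (r + r), j.val % r = m → M.IsBase (block b b' j)) →
        ∀ j : Fin (r + r), j.val % r = m → M.IsBase (block (b ∘ σ) (b' ∘ σ') j) := by
  classical
  set N := M.comap (Sum.elim b b') with hN
  have hE : ∀ X : Set (Fin r ⊕ Fin r), X ⊆ N.E := by
    intro X t _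
    rw [hN, Matroid.comap_ground_eq, Set.mem_preimage]
    rcases t with t | t
    · exact hB.subset_ground ⟨t, rfl⟩
    · exact hB'.subset_ground ⟨t, rfl⟩
  have hcard : ∀ I : Finset (Fin r ⊕ Fin r), (N✶.comap Sum.swap).Indep (I : Set _) →
      I.card ≤ r := by
    intro I hI
    rw [Matroid.comap_indep_iff, Matroid.dual_indep_iff_exists'] at hI
    obtain ⟨⟨_, B, hBB, hd⟩, _⟩ := hI
    have hfin : B.Finite := Set.toFinite B
    have h1 : hfin.toFinset.card = r := by
      have h2 : N.IsBase (Tt (1 : Equiv.Perm (Fin r)) 1 0 : Set (Fin r ⊕ Fin r)) :=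
        isBase_comap hb hB (zero_mem_KK hb hB hB').1 (card_Tt _ _ _)
      have h3 := hBB.encard_eq_encard_of_isBase h2
      rw [Set.encard_coe_eq_coe_finsetCard, card_Tt, ← hfin.coe_toFinset,
        Set.encard_coe_eq_coe_finsetCard] at h3
      exact_mod_cast h3
    have h4 : Disjoint (I.image Sum.swap) hfin.toFinset := by
      rw [Finset.disjoint_left]
      intro t ht ht'
      rw [Set.Finite.mem_toFinset] at ht'
      refine Set.disjoint_left.1 hd ?_ ht'
      obtain ⟨u, hu, rfl⟩ := Finset.mem_image.1 ht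
      exact ⟨u, hu, rfl⟩
    have h5 := Finset.card_le_univ (I.image Sum.swap ∪ hfin.toFinset)
    rw [Finset.card_union_of_disjoint h4, h1, Finset.card_image_of_injective _ swap_inj,
      Fintype.card_sum, Fintype.card_fin] at h5
    omega
  have hinT : ∀ m, N.Indep (Tt (1 : Equiv.Perm (Fin r)) 1 m : Set (Fin r ⊕ Fin r)) →
      (N✶.comap Sum.swap).Indep (Tt (1 : Equiv.Perm (Fin r)) 1 m : Set (Fin r ⊕ Fin r)) := by
    intro m hm
    rw [Matroid.comap_indep_iff, Matroid.dual_indep_iff_exists']
    refine ⟨⟨hE _, _, isBase_comap hb hB hm (card_Tt _ _ _), ?_⟩, swap_inj.injOn⟩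
    rw [Set.disjoint_left]
    intro t ht ht'
    rw [mem_swap] at ht
    rw [Finset.mem_coe] at ht'
    rcases t with t | t
    · rw [inl_mem_Tt] at ht'
      change Sum.inr t ∈ _ at ht
      rw [inr_mem_Tt] at ht
      omega
    · rw [inr_mem_Tt] at ht'
      change Sum.inl t ∈ _ at ht
      rw [inl_mem_Tt] at ht
      omega
  have hinS : ∀ m, N.Indep (Ss (1 : Equiv.Perm (Fin r)) 1 m : Set (Fin r ⊕ Fin r)) →
      (N✶.comap Sum.swap).Indep (Ss (1 : Equiv.Perm (Fin r)) 1 m : Set (Fin r ⊕ Fin r)) := by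
    intro m hm
    rw [Matroid.comap_indep_iff, Matroid.dual_indep_iff_exists']
    refine ⟨⟨hE _, _, isBase_comap hb hB hm (card_Ss _ _ _), ?_⟩, swap_inj.injOn⟩
    rw [Set.disjoint_left]
    intro t ht ht'
    rw [mem_swap] at ht
    rw [Finset.mem_coe] at ht'
    rcases t with t | t
    · rw [inl_mem_Ss] at ht'
      change Sum.inr t ∈ _ at ht
      rw [inr_mem_Ss] at ht
      omega
    · rw [inr_mem_Ss] at ht'
      change Sum.inl t ∈ _ at ht
      rw [inl_mem_Ss] at ht
      omega
  obtain ⟨τ', τ, q1, q1', q2, q3⟩ := greedy (N✶.comap Sum.swap) hcard (KK M b b')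
    (zero_mem_KK hb hB hB') (self_mem_KK hb hB hB') (fun m hm => hinT m hm.1)
    (fun m hm => hinS m hm.2) r le_rfl
  have hT : ∀ k ≤ r, N.Indep (Tt τ τ' k : Set (Fin r ⊕ Fin r)) := by
    intro k hk
    have h1 := q2 k hk
    rw [Matroid.comap_indep_iff, Matroid.dual_indep_iff_exists'] at h1
    obtain ⟨⟨_, B, hBB, hd⟩, _⟩ := h1
    have hfin : B.Finite := Set.toFinite B
    have h1 : hfin.toFinset.card = r := by
      have h2 : N.IsBase (Tt (1 : Equiv.Perm (Fin r)) 1 0 : Set (Fin r ⊕ Fin r)) :=
        isBase_comap hb hB (zero_mem_KK hb hB hB').1 (card_Tt _ _ _)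
      have h3 := hBB.encard_eq_encard_of_isBase h2
      rw [Set.encard_coe_eq_coe_finsetCard, card_Tt, ← hfin.coe_toFinset,
        Set.encard_coe_eq_coe_finsetCard] at h3
      exact_mod_cast h3
    have h4 : hfin.toFinset = Tt τ τ' k := by
      apply Finset.eq_of_subset_of_card_le
      · intro t ht
        rw [Set.Finite.mem_toFinset] at ht
        have h5 := fun h => Set.disjoint_left.1 hd h ht
        rw [mem_swap] at h5
        rcases t with t | t
        · change Sum.inr t ∉ _ at h5
          rw [inr_mem_Tt] at h5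
          rw [inl_mem_Tt]
          omega
        · change Sum.inl t ∉ _ at h5
          rw [inl_mem_Tt] at h5
          rw [inr_mem_Tt]
          omega
      · rw [h1, card_Tt]
    rw [← h4, hfin.coe_toFinset]
    exact hBB.indep
  refine ⟨τ, τ', outer hb hB hB' hT, ?_, keep hb hB q1' q1⟩
  intro i
  have key : ∃ X : Finset (Fin r ⊕ Fin r), N.Indep (X : Set (Fin r ⊕ Fin r)) ∧ X.card = r ∧
      ∀ t ∈ X, ∃ j : Fin (r + r), (j - i).val < r + 1 ∧
        (Fin.append (Sum.inl ∘ τ) (Sum.inr ∘ τ') : Fin (r + r) → Fin r ⊕ Fin r) j = t := by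
    have hir := i.isLt
    rcases Nat.lt_or_ge i.val r with h | h
    · refine ⟨_, hT i.val h.le, card_Tt _ _ _, fun t ht => ?_⟩
      rw [← Finset.mem_coe, ← block_Tt _ _ _ h] at ht
      obtain ⟨j, hj, rfl⟩ := ht
      exact ⟨j, by omega, rfl⟩
    · have hk : i.val - r < r := by omega
      have h1 := q3 ⟨i.val - r, hk⟩ hk
      rw [Matroid.comap_indep_iff, Matroid.dual_indep_iff_exists'] at h1
      obtain ⟨⟨_, B, hBB, hd⟩, _⟩ := h1
      have hfin : B.Finite := Set.toFinite B
      refine ⟨hfin.toFinset, by rw [hfin.coe_toFinset]; exact hBB.indep, ?_, ?_⟩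
      · have h2 : N.IsBase (Tt (1 : Equiv.Perm (Fin r)) 1 0 : Set (Fin r ⊕ Fin r)) :=
          isBase_comap hb hB (zero_mem_KK hb hB hB').1 (card_Tt _ _ _)
        have h3 := hBB.encard_eq_encard_of_isBase h2
        rw [Set.encard_coe_eq_coe_finsetCard, card_Tt, ← hfin.coe_toFinset,
          Set.encard_coe_eq_coe_finsetCard] at h3
        exact_mod_cast h3
      · intro t ht
        rw [Set.Finite.mem_toFinset] at ht
        have h5 : ¬ (t ∈ Sum.swap '' (((Ss τ' τ (i.val - r)).erase
            (Sum.inr (τ ⟨i.val - r, hk⟩)) : Finset (Fin r ⊕ Fin r)) : Set (Fin r ⊕ Fin r))) :=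
          fun h => Set.disjoint_left.1 hd h ht
        rw [mem_swap, Finset.mem_erase, not_and_or, not_not] at h5
        by_cases h6 : t = Sum.inl (τ ⟨i.val - r, hk⟩)
        · refine ⟨Fin.castAdd r ⟨i.val - r, hk⟩, ?_, ?_⟩
          · have h7 : Fin.castAdd r ⟨i.val - r, hk⟩ < i := by
              rw [Fin.lt_def, Fin.val_castAdd]
              change i.val - r < i.val
              omega
            rw [Fin.coe_sub_iff_lt.mpr h7, Fin.val_castAdd]
            change r + r + (i.val - r) - i.val < r + 1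
            omega
          · rw [Fin.append_left, h6]
            rfl
        · have h8 : t ∈ Ss τ τ' (i.val - r) := by
            rcases h5 with h5 | h5
            · exfalso
              apply h6
              rw [← Sum.swap_swap t, h5]
              rfl
            · rcases t with t | t
              · change Sum.inr t ∉ _ at h5
                rw [inr_mem_Ss] at h5
                rw [inl_mem_Ss]
                change ¬ i.val - r ≤ _ at h5
                omega
              · change Sum.inl t ∉ _ at h5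
                rw [inl_mem_Ss] at h5
                rw [inr_mem_Ss]
                change ¬ _ < i.val - r at h5
                omega
          rw [← Finset.mem_coe, ← block_Ss _ _ _ h] at h8
          obtain ⟨j, hj, rfl⟩ := h8
          exact ⟨j, by omega, rfl⟩
  obtain ⟨X, hX, hXc, hXj⟩ := key
  refine (isBase_of_indep hb hB hX hXc).spanning_of_superset ?_ ?_
  · rintro _ ⟨t, ht, rfl⟩
    obtain ⟨j, hj, rfl⟩ := hXj t ht
    refine ⟨j, hj, ?_⟩
    rw [append_comp]
    rfl
  · rintro _ ⟨j, _, rfl⟩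
    rw [append_comp]
    exact hE Set.univ (Set.mem_univ _)

end Bases

end Pool.Agent.Near48
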