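import Mathlib

/-!
# Almost Gabow: the greedy construction of the orderings

`N` is a matroid of rank `r` on the index set `Fin r ⊕ Fin r`, the first and the second copy of
`Fin r` are two bases. `Tt σ σ' n` consists of the terms with number `≥ n` of the first basis and of
the terms with number `< n` of the second one, `Ss σ σ' n` is its complement.

Let `K` be a set of numbers `m` such that `Tt 1 1 m` and `Ss 1 1 m` are bases. `greedy`: there are
orderings which keep the sets of the first `m` terms for all `m` in `K`, such that all `Tt n` are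
bases and all `Ss n` become independent if their first term is removed.

Step: let `m` be the next element of `K` after `n`. `Ss n` has rank `≥ r - 1`, its terms except the
ones with numbers between `n` and `m` of the second basis are in the basis `Ss m`; so one of these
terms can be removed such that an independent set remains, this becomes term `n` of the second
basis. After adding it to `Tt n` one of the terms of the first basis with numbers between `n` and
`m` can be removed since the others are in the basis `Tt m`; this becomes term `n` of the first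
basis.
-/

set_option autoImplicit false

namespace Pool.Agent.Near48

variable {r : ℕ}

theorem aug {ι : Type*} [Fintype ι] (N : Matroid ι) {I K X : Finset ι}
    (hI : N.Indep (I : Set ι)) (hK : N.Indep (K : Set ι)) (hIX : I ⊆ X) (hKX : K ⊆ X) :
    ∃ J : Finset ι, I ⊆ J ∧ J ⊆ X ∧ N.Indep (J : Set ι) ∧ K.card ≤ J.card := by
  classical
  obtain ⟨J, hJ, hIJ⟩ := hI.subset_isBasis'_of_subset (Finset.coe_subset.2 hIX)
  have hfin : J.Finite := Set.toFinite J
  refine ⟨hfin.toFinset, ?_, ?_, ?_, ?_⟩
  · intro t ht
    rw [Set.Finite.mem_toFinset]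
    exact hIJ ht
  · intro t ht
    rw [Set.Finite.mem_toFinset] at ht
    exact hJ.subset ht
  · rw [Set.Finite.coe_toFinset]
    exact hJ.indep
  · have h1 := hK.encard_le_eRk_of_subset (Finset.coe_subset.2 hKX)
    rw [← hJ.encard_eq_eRk, ← hfin.coe_toFinset, Set.encard_coe_eq_coe_finsetCard,
      Set.encard_coe_eq_coe_finsetCard] at h1
    exact_mod_cast h1

/-- the terms `≥ n` of the first and the terms `< n` of the second basis -/
def Tt (σ σ' : Equiv.Perm (Fin r)) (n : ℕ) : Finset (Fin r ⊕ Fin r) :=
  (Finset.univ.filter fun i => n ≤ (σ.symm i).val).disjSum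
    (Finset.univ.filter fun i => (σ'.symm i).val < n)

/-- the terms `< n` of the first and the terms `≥ n` of the second basis -/
def Ss (σ σ' : Equiv.Perm (Fin r)) (n : ℕ) : Finset (Fin r ⊕ Fin r) :=
  (Finset.univ.filter fun i => (σ.symm i).val < n).disjSum
    (Finset.univ.filter fun i => n ≤ (σ'.symm i).val)

theorem inl_mem_Tt {σ σ' : Equiv.Perm (Fin r)} {n : ℕ} {i : Fin r} :
    Sum.inl i ∈ Tt σ σ' n ↔ n ≤ (σ.symm i).val := by
  simp [Tt]

theorem inr_mem_Tt {σ σ' : Equiv.Perm (Fin r)} {n : ℕ} {i : Fin r} :
    Sum.inr i ∈ Tt σ σ' n ↔ (σ'.symm i).val < n := by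
  simp [Tt]

theorem inl_mem_Ss {σ σ' : Equiv.Perm (Fin r)} {n : ℕ} {i : Fin r} :
    Sum.inl i ∈ Ss σ σ' n ↔ (σ.symm i).val < n := by
  simp [Ss]

theorem inr_mem_Ss {σ σ' : Equiv.Perm (Fin r)} {n : ℕ} {i : Fin r} :
    Sum.inr i ∈ Ss σ σ' n ↔ n ≤ (σ'.symm i).val := by
  simp [Ss]

private lemma card_lt (σ : Equiv.Perm (Fin r)) (n : ℕ) :
    (Finset.univ.filter fun i => (σ.symm i).val < n).card =
      (Finset.univ.filter fun i : Fin r => i.val < n).card := by
  rw [← Finset.card_map (s := Finset.univ.filter fun i : Fin r => i.val < n) σ.toEmbedding]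
  congr 1
  ext i
  simp only [Finset.mem_filter, Finset.mem_univ, true_and, Finset.mem_map,
    Equiv.coe_toEmbedding]
  constructor
  · intro h
    exact ⟨σ.symm i, h, by simp⟩
  · rintro ⟨j, hj, rfl⟩
    simpa using hj

private lemma card_add (σ : Equiv.Perm (Fin r)) (n : ℕ) :
    (Finset.univ.filter fun i => n ≤ (σ.symm i).val).card +
      (Finset.univ.filter fun i : Fin r => i.val < n).card = r := by
  rw [← card_lt σ n, add_comm]
  have h := Finset.card_filter_add_card_filter_not (s := (Finset.univ : Finset (Fin r)))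
    (fun i => (σ.symm i).val < n)
  simp only [not_lt] at h
  rw [h, Finset.card_univ, Fintype.card_fin]

theorem card_Tt (σ σ' : Equiv.Perm (Fin r)) (n : ℕ) : (Tt σ σ' n).card = r := by
  rw [Tt, Finset.card_disjSum, card_lt]
  exact card_add σ n

theorem card_Ss (σ σ' : Equiv.Perm (Fin r)) (n : ℕ) : (Ss σ σ' n).card = r := by
  rw [Ss, Finset.card_disjSum, card_lt, add_comm]
  exact card_add σ' n

/-- the permutation with the terms `n` and `m` exchanged -/
private lemma symm_swap (σ : Equiv.Perm (Fin r)) (n m i : Fin r) :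
    (σ * Equiv.swap n m).symm i = Equiv.swap n m (σ.symm i) := by
  change (σ * Equiv.swap n m)⁻¹ i = _
  rw [mul_inv_rev, Equiv.swap_inv]
  rfl

private lemma swap_lt {n m : Fin r} {k : ℕ} (h : n.val < k ↔ m.val < k) (i : Fin r) :
    (Equiv.swap n m i).val < k ↔ i.val < k := by
  rw [Equiv.swap_apply_def]
  split_ifs with h1 h2
  · rw [h1, h]
  · rw [h2, h]
  · rfl

theorem greedy (N : Matroid (Fin r ⊕ Fin r))
    (hN : ∀ I : Finset (Fin r ⊕ Fin r), N.Indep (I : Set (Fin r ⊕ Fin r)) → I.card ≤ r)
    (K : Set ℕ) (h0 : 0 ∈ K) (hr : r ∈ K)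
    (hT : ∀ m ∈ K, N.Indep (Tt (1 : Equiv.Perm (Fin r)) 1 m : Set (Fin r ⊕ Fin r)))
    (hS : ∀ m ∈ K, N.Indep (Ss (1 : Equiv.Perm (Fin r)) 1 m : Set (Fin r ⊕ Fin r))) :
    ∀ n ≤ r, ∃ σ σ' : Equiv.Perm (Fin r),
      (∀ m ∈ K, ∀ i, (σ i).val < m ↔ i.val < m) ∧
      (∀ m ∈ K, ∀ i, (σ' i).val < m ↔ i.val < m) ∧
      (∀ k ≤ n, N.Indep (Tt σ σ' k : Set (Fin r ⊕ Fin r))) ∧
      ∀ k : Fin r, k.val < n →
        N.Indep ((Ss σ σ' k.val).erase (Sum.inr (σ' k)) : Set (Fin r ⊕ Fin r)) := by
  classical
  intro n
  induction n with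
  | zero =>
    intro _
    refine ⟨1, 1, fun m _ i => Iff.rfl, fun m _ i => Iff.rfl, fun k hk => ?_,
      fun k hk => absurd hk (Nat.not_lt_zero _)⟩
    rw [Nat.le_zero.1 hk]
    exact hT 0 h0
  | succ n ih =>
    intro hn
    obtain ⟨σ, σ', p1, p1', p2, p3⟩ := ih (by omega)
    -- the next element of `K`
    have hex : ∃ m, m ∈ K ∧ n < m := ⟨r, hr, hn⟩
    obtain ⟨m, ⟨hmK, hnm⟩, hmin⟩ : ∃ m, (m ∈ K ∧ n < m) ∧ ∀ m', m' ∈ K → n < m' → m ≤ m' :=
      ⟨Nat.find hex, Nat.find_spec hex, fun m' h1 h2 => Nat.find_min' hex ⟨h1, h2⟩⟩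
    have hmr : m ≤ r := hmin r hr hn
    have e1 : ∀ i, (σ.symm i).val < m ↔ i.val < m := fun i => by
      rw [← p1 m hmK, Equiv.apply_symm_apply]
    have e1' : ∀ i, (σ'.symm i).val < m ↔ i.val < m := fun i => by
      rw [← p1' m hmK, Equiv.apply_symm_apply]
    have hTm : N.Indep (Tt σ σ' m : Set (Fin r ⊕ Fin r)) := by
      have : Tt σ σ' m = Tt (1 : Equiv.Perm (Fin r)) 1 m := by
        ext t
        rcases t with i | i
        · rw [inl_mem_Tt, inl_mem_Tt]
          have := e1 i
          change _ ↔ m ≤ i.val
          omega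
        · rw [inr_mem_Tt, inr_mem_Tt]
          exact e1' i
      rw [this]
      exact hT m hmK
    have hSm : N.Indep (Ss σ σ' m : Set (Fin r ⊕ Fin r)) := by
      have : Ss σ σ' m = Ss (1 : Equiv.Perm (Fin r)) 1 m := by
        ext t
        rcases t with i | i
        · rw [inl_mem_Ss, inl_mem_Ss]
          exact e1 i
        · rw [inr_mem_Ss, inr_mem_Ss]
          have := e1' i
          change _ ↔ m ≤ i.val
          omega
      rw [this]
      exact hS m hmK
    -- an independent subset with `r - 1` elements of `Ss n`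
    obtain ⟨J₀, hJ₀, hJ₀S, hJ₀c⟩ : ∃ J₀ : Finset (Fin r ⊕ Fin r),
        N.Indep (J₀ : Set (Fin r ⊕ Fin r)) ∧ J₀ ⊆ Ss σ σ' n ∧ r - 1 ≤ J₀.card := by
      rcases Nat.eq_zero_or_pos n with rfl | hpos
      · refine ⟨Ss σ σ' 0, ?_, subset_rfl, by rw [card_Ss]; omega⟩
        have : Ss σ σ' 0 = Ss (1 : Equiv.Perm (Fin r)) 1 0 := by
          ext t
          rcases t with i | i
          · rw [inl_mem_Ss, inl_mem_Ss]
            exact iff_of_false (Nat.not_lt_zero _) (Nat.not_lt_zero _)
          · rw [inr_mem_Ss, inr_mem_Ss]
            exact iff_of_true (Nat.zero_le _) (Nat.zero_le _)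
        rw [this]
        exact hS 0 h0
      · have hlt : n - 1 < r := by omega
        refine ⟨_, p3 ⟨n - 1, hlt⟩ (by change n - 1 < n; omega), ?_, ?_⟩
        · intro t ht
          rw [Finset.mem_erase] at ht
          obtain ⟨h1, h2⟩ := ht
          rcases t with i | i
          · rw [inl_mem_Ss] at h2 ⊢
            change _ < n - 1 at h2
            omega
          · rw [inr_mem_Ss] at h2 ⊢
            change n - 1 ≤ _ at h2
            by_contra hc
            apply h1
            have h3 : σ'.symm i = ⟨n - 1, hlt⟩ := Fin.ext (by change _ = n - 1; omega)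
            rw [← h3, Equiv.apply_symm_apply]
        · rw [Finset.card_erase_of_mem, card_Ss]
          rw [inr_mem_Ss, Equiv.symm_apply_apply]
    -- the term `n` of the second basis
    obtain ⟨m₁, hm₁n, hm₁m, hd⟩ : ∃ m₁ : Fin r, n ≤ m₁.val ∧ m₁.val < m ∧
        N.Indep ((Ss σ σ' n).erase (Sum.inr (σ' m₁)) : Set (Fin r ⊕ Fin r)) := by
      have hI : N.Indep (((Ss σ σ' n).filter fun t => t ∈ Ss σ σ' m : Finset _) :
          Set (Fin r ⊕ Fin r)) := by
        refine hSm.subset fun t ht => ?_
        rw [Finset.mem_coe, Finset.mem_filter] at ht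
        exact ht.2
      obtain ⟨J, hIJ, hJS, hJ, hJc⟩ := aug N hI hJ₀ (Finset.filter_subset _ _) hJ₀S
      by_cases hall : J = Ss σ σ' n
      · refine ⟨⟨n, by omega⟩, le_rfl, hnm, ?_⟩
        refine hJ.subset fun t ht => ?_
        rw [hall]
        exact Finset.mem_of_mem_erase (Finset.mem_coe.1 ht)
      · obtain ⟨d, hdS, hdJ⟩ : ∃ d ∈ Ss σ σ' n, d ∉ J := by
          by_contra hcon
          push Not at hcon
          exact hall (Finset.Subset.antisymm hJS hcon)
        have hJe : J = (Ss σ σ' n).erase d := by
          apply Finset.eq_of_subset_of_card_le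
          · intro t ht
            refine Finset.mem_erase.2 ⟨fun h => hdJ (h ▸ ht), hJS ht⟩
          · rw [Finset.card_erase_of_mem hdS, card_Ss]
            omega
        have hdm : d ∉ Ss σ σ' m := fun h => hdJ (hIJ (Finset.mem_filter.2 ⟨hdS, h⟩))
        rcases d with i | i
        · exfalso
          rw [inl_mem_Ss] at hdS hdm
          omega
        · rw [inr_mem_Ss] at hdS hdm
          refine ⟨σ'.symm i, hdS, by omega, ?_⟩
          rw [Equiv.apply_symm_apply, ← hJe]
          exact hJ
    -- the term `n` of the first basis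
    obtain ⟨m₂, hm₂n, hm₂m, ha⟩ : ∃ m₂ : Fin r, n ≤ m₂.val ∧ m₂.val < m ∧
        N.Indep (insert (Sum.inr (σ' m₁)) ((Tt σ σ' n).erase (Sum.inl (σ m₂))) :
          Finset (Fin r ⊕ Fin r)) := by
      have hdT : Sum.inr (σ' m₁) ∉ Tt σ σ' n := by
        rw [inr_mem_Tt, Equiv.symm_apply_apply]
        omega
      have hI : N.Indep ((((insert (Sum.inr (σ' m₁)) (Tt σ σ' n)).filter
          fun t => t ∈ Tt σ σ' m : Finset _)) : Set (Fin r ⊕ Fin r)) := by
        refine hTm.subset fun t ht => ?_
        rw [Finset.mem_coe, Finset.mem_filter] at ht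
        exact ht.2
      obtain ⟨J, hIJ, hJS, hJ, hJc⟩ := aug N hI (p2 n le_rfl) (Finset.filter_subset _ _)
        (Finset.subset_insert _ _)
      rw [card_Tt] at hJc
      obtain ⟨a, haT, haJ⟩ : ∃ a ∈ insert (Sum.inr (σ' m₁)) (Tt σ σ' n), a ∉ J := by
        by_contra hcon
        push Not at hcon
        have h1 := Finset.Subset.antisymm hJS hcon
        have h2 := hN J hJ
        rw [h1, Finset.card_insert_of_notMem hdT, card_Tt] at h2
        omega
      have hJe : J = (insert (Sum.inr (σ' m₁)) (Tt σ σ' n)).erase a := by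
        apply Finset.eq_of_subset_of_card_le
        · intro t ht
          refine Finset.mem_erase.2 ⟨fun h => haJ (h ▸ ht), hJS ht⟩
        · rw [Finset.card_erase_of_mem haT, Finset.card_insert_of_notMem hdT, card_Tt]
          omega
      have ham : a ∉ Tt σ σ' m := fun h => haJ (hIJ (Finset.mem_filter.2 ⟨haT, h⟩))
      rcases a with i | i
      · have haT' : Sum.inl i ∈ Tt σ σ' n := by
          rcases Finset.mem_insert.1 haT with h | h
          · exact absurd h (by simp)
          · exact h
        rw [inl_mem_Tt] at haT' ham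
        refine ⟨σ.symm i, haT', by omega, ?_⟩
        rw [Equiv.apply_symm_apply, ← Finset.erase_insert_of_ne (by simp), ← hJe]
        exact hJ
      · exfalso
        apply ham
        rw [inr_mem_Tt]
        rcases Finset.mem_insert.1 haT with h | h
        · have h3 : i = σ' m₁ := by simpa using h
          rw [h3, Equiv.symm_apply_apply]
          exact hm₁m
        · rw [inr_mem_Tt] at h
          omega
    -- the new permutations
    have hnr : n < r := hn
    refine ⟨σ * Equiv.swap ⟨n, hnr⟩ m₂, σ' * Equiv.swap ⟨n, hnr⟩ m₁, ?_, ?_, ?_, ?_⟩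
    · intro k hk i
      have h1 : (⟨n, hnr⟩ : Fin r).val < k ↔ m₂.val < k := by
        change n < k ↔ _
        constructor
        · intro h
          have := hmin k hk h
          omega
        · intro h
          omega
      rw [Equiv.Perm.mul_apply, p1 k hk, swap_lt h1]
    · intro k hk i
      have h1 : (⟨n, hnr⟩ : Fin r).val < k ↔ m₁.val < k := by
        change n < k ↔ _
        constructor
        · intro h
          have := hmin k hk h
          omega
        · intro h
          omega
      rw [Equiv.Perm.mul_apply, p1' k hk, swap_lt h1]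
    · intro k hk
      rcases Nat.lt_or_ge n k with h | h
      · have hkn : k = n + 1 := by omega
        have : Tt (σ * Equiv.swap ⟨n, hnr⟩ m₂) (σ' * Equiv.swap ⟨n, hnr⟩ m₁) k =
            insert (Sum.inr (σ' m₁)) ((Tt σ σ' n).erase (Sum.inl (σ m₂))) := by
          rw [hkn]
          ext t
          rcases t with i | i
          · rw [inl_mem_Tt, symm_swap, Finset.mem_insert, Finset.mem_erase, inl_mem_Tt,
              Equiv.swap_apply_def]
            have h1 : Sum.inl i = Sum.inl (β := Fin r) (σ m₂) ↔ σ.symm i = m₂ := by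
              rw [Sum.inl.injEq, Equiv.symm_apply_eq]
            rw [Ne, h1]
            split_ifs with h2 h3
            · rw [h2]
              simp only [false_or]
              have : (⟨n, hnr⟩ : Fin r) = m₂ ↔ n = m₂.val := by
                rw [Fin.ext_iff]
              rw [this]
              change n + 1 ≤ m₂.val ↔ ¬ n = m₂.val ∧ n ≤ n
              omega
            · simp only [false_or]
              rw [h3]
              change n + 1 ≤ n ↔ _
              simp
            · simp only [false_or]
              have : σ.symm i ≠ ⟨n, hnr⟩ := h2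
              rw [Ne, Fin.ext_iff] at this
              change ¬ (σ.symm i).val = n at this
              constructor
              · intro h4
                exact ⟨h3, by omega⟩
              · rintro ⟨_, h4⟩
                omega
          · rw [inr_mem_Tt, symm_swap, Finset.mem_insert, Finset.mem_erase, inr_mem_Tt,
              Equiv.swap_apply_def]
            have h1 : Sum.inr i = Sum.inr (α := Fin r) (σ' m₁) ↔ σ'.symm i = m₁ := by
              rw [Sum.inr.injEq, Equiv.symm_apply_eq]
            rw [h1]
            split_ifs with h2 h3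
            · rw [h2]
              have : (⟨n, hnr⟩ : Fin r) = m₁ ↔ n = m₁.val := by
                rw [Fin.ext_iff]
              rw [this]
              simp only [ne_eq, reduceCtorEq, not_false_eq_true, true_and]
              omega
            · rw [h3]
              simp
            · have : σ'.symm i ≠ ⟨n, hnr⟩ := h2
              rw [Ne, Fin.ext_iff] at this
              change ¬ (σ'.symm i).val = n at this
              simp only [ne_eq, reduceCtorEq, not_false_eq_true, true_and]
              constructor
              · intro h4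
                right
                omega
              · rintro (h4 | h4)
                · exact absurd h4 h3
                · omega
        rw [this]
        exact ha
      · have : Tt (σ * Equiv.swap ⟨n, hnr⟩ m₂) (σ' * Equiv.swap ⟨n, hnr⟩ m₁) k = Tt σ σ' k := by
          ext t
          rcases t with i | i
          · rw [inl_mem_Tt, inl_mem_Tt, symm_swap]
            have := swap_lt (n := ⟨n, hnr⟩) (m := m₂) (k := k)
              (by change n < k ↔ _; omega) (σ.symm i)
            omega
          · rw [inr_mem_Tt, inr_mem_Tt, symm_swap]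
            exact swap_lt (n := ⟨n, hnr⟩) (m := m₁) (k := k)
              (by change n < k ↔ _; omega) (σ'.symm i)
        rw [this]
        exact p2 k h
    · intro k hk
      have hSk : ∀ k : ℕ, k ≤ n →
          Ss (σ * Equiv.swap ⟨n, hnr⟩ m₂) (σ' * Equiv.swap ⟨n, hnr⟩ m₁) k = Ss σ σ' k := by
        intro k h
        ext t
        rcases t with i | i
        · rw [inl_mem_Ss, inl_mem_Ss, symm_swap]
          exact swap_lt (n := ⟨n, hnr⟩) (m := m₂) (k := k)
            (by change n < k ↔ _; omega) (σ.symm i)
        · rw [inr_mem_Ss, inr_mem_Ss, symm_swap]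
          have := swap_lt (n := ⟨n, hnr⟩) (m := m₁) (k := k)
            (by change n < k ↔ _; omega) (σ'.symm i)
          omega
      rw [hSk k.val (by omega)]
      rcases Nat.lt_or_ge k.val n with h | h
      · have : (σ' * Equiv.swap ⟨n, hnr⟩ m₁) k = σ' k := by
          rw [Equiv.Perm.mul_apply, Equiv.swap_apply_of_ne_of_ne]
          · intro h1
            rw [h1] at h
            exact lt_irrefl _ h
          · intro h1
            rw [h1] at h
            omega
        rw [this]
        exact p3 k h
      · have hkn : k = ⟨n, hnr⟩ := Fin.ext (by change _ = n; omega)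
        rw [hkn, Equiv.Perm.mul_apply, Equiv.swap_apply_left]
        exact hd

end Pool.Agent.Near48
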