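import Pool.Agent.Near48.Blocks
import Pool.Agent.Gabow87.Main6

/-!
# MP_77f645_co: Gabow's conjecture holds up to rank one, for all matroids

Any two bases `B`, `B'` of a matroid of rank `r` can be ordered such that, in the cyclic sequence
which lists `B` and then `B'`, all `r + 1` blocks of `r` consecutive terms which do not start inside
`B'` after its first term are bases, and any `r - 1` consecutive terms are independent (so that every
block of `r` consecutive terms has rank at least `r - 1`). If `r ≥ 6` the blocks starting at the terms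
with number `0, 1, 2, r - 2, r - 1` modulo `r` are also bases. No assumption on the matroid.
-/

set_option autoImplicit false

namespace Pool.Agent.Near48.NearGabow

/-- The block of `r` cyclically consecutive terms, starting with the term number `i`, of the
sequence `u 0, ..., u (r - 1), v 0, ..., v (r - 1)` of length `2 r` (numbered from `0`): the set of
all terms whose number `j` satisfies `(j - i) mod 2 r < r`. -/
def block {α : Type*} {r : ℕ} (u v : Fin r → α) (i : Fin (r + r)) : Set α :=
  {x | ∃ j : Fin (r + r), (j - i).val < r ∧ x = Fin.append u v j}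

/-- Let `b` and `b'` list two bases of a matroid of rank `r` (they may share elements). They can be
reordered such that every block which starts at a term number `i ≤ r` or, if `r ≥ 6`, at a term
number `i` with `i mod r ∈ {0, 1, 2, r - 2, r - 1}` is a basis, and any `r - 1` cyclically
consecutive terms are distinct and form an independent set. -/
theorem result {α : Type*} (M : Matroid α) {r : ℕ} (b b' : Fin r → α)
    (hb : Function.Injective b) (hb' : Function.Injective b')
    (hB : M.IsBase (Set.range b)) (hB' : M.IsBase (Set.range b')) :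
    ∃ σ σ' : Equiv.Perm (Fin r),
      (∀ i : Fin (r + r),
        (i.val ≤ r ∨ 6 ≤ r ∧ (i.val % r ≤ 2 ∨ i.val % r = r - 2 ∨ i.val % r = r - 1)) →
        M.IsBase (block (b ∘ σ) (b' ∘ σ') i)) ∧
      ∀ i : Fin (r + r), Set.InjOn (Fin.append (b ∘ σ) (b' ∘ σ')) {j | (j - i).val < r - 1} ∧
        M.Indep (Fin.append (b ∘ σ) (b' ∘ σ') '' {j | (j - i).val < r - 1}) := by
  obtain ⟨τ, τ', hτ⟩ : ∃ τ τ' : Equiv.Perm (Fin r), ∀ i : Fin (r + r),
      6 ≤ r ∧ (i.val % r ≤ 2 ∨ i.val % r = r - 2 ∨ i.val % r = r - 1) →
      M.IsBase (Pool.Agent.Gabow87.block (b ∘ τ) (b' ∘ τ') i) := by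
    rcases Nat.lt_or_ge r 6 with h | h
    · exact ⟨1, 1, fun i hi => absurd hi.1 (by omega)⟩
    · obtain ⟨τ, τ', h1⟩ := Pool.Agent.Gabow87.main6 M h b b' hb hb' hB hB'
      exact ⟨τ, τ', fun i hi => h1 i (by omega)⟩
  have hbτ : Function.Injective (b ∘ τ) := hb.comp τ.injective
  have hBτ : M.IsBase (Set.range (b ∘ τ)) := by
    rw [τ.surjective.range_comp]
    exact hB
  have hBτ' : M.IsBase (Set.range (b' ∘ τ')) := by
    rw [τ'.surjective.range_comp]
    exact hB'
  obtain ⟨σ, σ', h1, h2, h3⟩ := Pool.Agent.Near48.near_refine M (b ∘ τ) (b' ∘ τ') hbτ hBτ hBτ'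
  refine ⟨τ * σ, τ' * σ', ?_, h2⟩
  intro i hi
  rcases hi with hi | hi
  · exact h1 i hi
  · refine h3 (i.val % r) (fun j hj => hτ j ?_) i rfl
    rw [hj]
    exact hi

end Pool.Agent.Near48.NearGabow
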